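import Pool.Agent.H6.NE.Stm3

set_option autoImplicit false

open Finset

namespace H61.NE

open H6.NE

section
variable (R X : Type) [CommRing R] (c : ℕ)

/-- words of length at most `c` -/
abbrev Wd : Type := {w : List X // w.length ≤ c}

open Classical in
/-- left concatenation with `v` -/
noncomputable def Lc (v : List X) : (Wd X c → R) →ₗ[R] (Wd X c → R) where
  toFun f := fun u => if v <+: u.1 then
    f ⟨u.1.drop v.length, le_trans (by rw [List.length_drop]; exact Nat.sub_le _ _) u.2⟩ else 0
  map_add' := by
    intro f g
    funext u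
    simp only [Pi.add_apply]
    split_ifs <;> simp
  map_smul' := by
    intro a f
    funext u
    simp only [Pi.smul_apply, RingHom.id_apply]
    split_ifs <;> simp

open Classical in
theorem Lc_apply (v : List X) (f : Wd X c → R) (u : Wd X c) :
    Lc R X c v f u = if v <+: u.1 then
      f ⟨u.1.drop v.length, le_trans (by rw [List.length_drop]; exact Nat.sub_le _ _) u.2⟩
      else 0 := rfl

theorem pre_append (v w u : List X) :
    (v ++ w) <+: u ↔ v <+: u ∧ w <+: u.drop v.length := by
  constructor
  · rintro ⟨t, rfl⟩
    refine ⟨⟨w ++ t, by simp⟩, ?_⟩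
    rw [List.append_assoc, List.drop_left]
    exact ⟨t, rfl⟩
  · rintro ⟨⟨t, rfl⟩, h⟩
    rw [List.drop_left] at h
    obtain ⟨s, rfl⟩ := h
    exact ⟨s, by simp⟩

theorem Lc_mul (v w : List X) :
    (Lc R X c v : Module.End R (Wd X c → R)) * Lc R X c w = Lc R X c (v ++ w) := by
  classical
  refine LinearMap.ext fun f => ?_
  funext u
  rw [Module.End.mul_apply, Lc_apply, Lc_apply, Lc_apply]
  by_cases h1 : v <+: u.1
  · rw [if_pos h1]
    by_cases h2 : w <+: u.1.drop v.length
    · rw [if_pos h2, if_pos ((pre_append X v w u.1).2 ⟨h1, h2⟩)]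
      congr 1
      apply Subtype.ext
      simp [List.drop_drop, List.length_append]
    · rw [if_neg h2, if_neg (fun h => h2 ((pre_append X v w u.1).1 h).2)]
  · rw [if_neg h1, if_neg (fun h => h1 ((pre_append X v w u.1).1 h).1)]

theorem Lc_zero (v : List X) (h : c < v.length) : Lc R X c v = 0 := by
  classical
  refine LinearMap.ext fun f => ?_
  funext u
  rw [Lc_apply, if_neg]
  · rfl
  · intro h1
    have := h1.length_le
    have := u.2
    omega

open Classical in
/-- the empty word -/
noncomputable def e0 : Wd X c → R := fun u => if u.1 = [] then 1 else 0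

open Classical in
/-- coefficient -/
noncomputable def cf (w : List X) : Module.End R (Wd X c → R) →ₗ[R] R where
  toFun s := if h : w.length ≤ c then s (e0 R X c) ⟨w, h⟩ else 0
  map_add' := by
    intro s t
    split_ifs <;> simp
  map_smul' := by
    intro a s
    split_ifs <;> simp

open Classical in
theorem cf_Lc (w v : List X) (h : w.length ≤ c) :
    cf R X c w (Lc R X c v) = if w = v then 1 else 0 := by
  change (if h : w.length ≤ c then Lc R X c v (e0 R X c) ⟨w, h⟩ else 0) = _
  rw [dif_pos h, Lc_apply]
  by_cases h1 : v <+: w
  · rw [if_pos h1]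
    obtain ⟨t, rfl⟩ := h1
    unfold e0
    simp only [List.drop_left]
    by_cases h2 : t = []
    · subst h2
      simp
    · rw [if_neg h2, if_neg]
      intro h3
      apply h2
      have := congrArg List.length h3
      rw [List.length_append] at this
      exact List.length_eq_zero_iff.1 (by omega)
  · rw [if_neg h1, if_neg]
    rintro rfl
    exact h1 (List.prefix_refl _)

/-- the augmentation ideal -/
noncomputable def Jw : Submodule R (Module.End R (Wd X c → R)) :=
  Submodule.span R {s | ∃ w : List X, w ≠ [] ∧ s = Lc R X c w}

theorem Jw_pow (j : ℕ) (hj : 0 < j) : Jw R X c ^ j =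
    Submodule.span R {s | ∃ w : List X, j ≤ w.length ∧ s = Lc R X c w} := by
  induction j, hj using Nat.le_induction with
  | base =>
    rw [pow_one]
    unfold Jw
    congr 1
    ext s
    constructor
    · rintro ⟨w, hw, rfl⟩
      exact ⟨w, List.length_pos_iff.2 hw, rfl⟩
    · rintro ⟨w, hw, rfl⟩
      exact ⟨w, List.length_pos_iff.1 hw, rfl⟩
  | succ j hj ih =>
    rw [pow_succ', ih]
    unfold Jw
    rw [Submodule.span_mul_span]
    apply le_antisymm
    · rw [Submodule.span_le]
      rintro s ⟨a, ⟨v, hv, rfl⟩, b, ⟨w, hw, rfl⟩, rfl⟩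
      refine Submodule.subset_span ⟨v ++ w, ?_, ?_⟩
      · rw [List.length_append]
        have := List.length_pos_iff.2 hv
        omega
      · exact Lc_mul R X c v w
    · rw [Submodule.span_le]
      rintro s ⟨w, hw, rfl⟩
      cases w with
      | nil => simp at hw
      | cons x w =>
        refine Submodule.subset_span ⟨Lc R X c [x], ⟨[x], by simp, rfl⟩, Lc R X c w, ⟨w, ?_, rfl⟩, ?_⟩
        · simpa using hw
        · exact Lc_mul R X c [x] w

end

theorem t_FR : S_FR := by
  classical
  intro p N c _ X _
  have : NeZero (p ^ N) := ⟨pow_ne_zero _ (Fact.out : p.Prime).ne_zero⟩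
  have : Finite (Wd X c) := Set.finite_coe_iff.2 (List.finite_length_le X c)
  have : Finite (Module.End (ZMod (p ^ N)) (Wd X c → ZMod (p ^ N))) :=
    DFunLike.finite _
  refine ⟨Module.End (ZMod (p ^ N)) (Wd X c → ZMod (p ^ N)), inferInstance, inferInstance,
    inferInstance, Jw (ZMod (p ^ N)) X c, fun x => Lc (ZMod (p ^ N)) X c [x],
    cf (ZMod (p ^ N)) X c, ?_, ?_, ?_, ?_, ?_, ?_, ?_, ?_⟩
  · rw [← pow_two, Jw_pow _ _ _ 2 (by norm_num)]
    conv_rhs => rw [← pow_one (Jw (ZMod (p ^ N)) X c), Jw_pow _ _ _ 1 (by norm_num)]
    apply Submodule.span_mono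
    rintro s ⟨w, hw, rfl⟩
    exact ⟨w, by omega, rfl⟩
  · rw [Jw_pow _ _ _ (c + 1) (by omega), Submodule.span_eq_bot]
    rintro s ⟨w, hw, rfl⟩
    exact Lc_zero _ _ _ _ (by omega)
  · intro x
    exact Submodule.subset_span ⟨[x], by simp, rfl⟩
  · intro j _ s hs w hw
    rw [Jw_pow _ _ _ (j + 1) (by omega)] at hs
    by_cases hc : w.length ≤ c
    · induction hs using Submodule.span_induction with
      | mem s hs =>
        obtain ⟨v, hv, rfl⟩ := hs
        rw [cf_Lc _ _ _ _ _ hc, if_neg]
        rintro rfl
        omega
      | zero => exact map_zero _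
      | add s t _ _ h1 h2 => rw [map_add, h1, h2, add_zero]
      | smul a s _ h1 => rw [map_smul, h1, smul_zero]
    · change (if h : w.length ≤ c then s (e0 (ZMod (p ^ N)) X c) ⟨w, h⟩ else 0) = 0
      rw [dif_neg hc]
  · intro j hj s hs h0
    have key : s - ∑ w ∈ (List.finite_length_eq X j).toFinset,
        cf (ZMod (p ^ N)) X c w s • (Lc (ZMod (p ^ N)) X c w :
          Module.End (ZMod (p ^ N)) (Wd X c → ZMod (p ^ N))) ∈ Jw (ZMod (p ^ N)) X c ^ (j + 1) := by
      clear h0
      rw [Jw_pow _ _ _ (j + 1) (by omega)]
      rw [Jw_pow _ _ _ j hj] at hs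
      induction hs using Submodule.span_induction with
      | mem s hs =>
        obtain ⟨v, hv, rfl⟩ := hs
        by_cases hvj : v.length = j
        · by_cases hc : j ≤ c
          · rw [Finset.sum_eq_single v]
            · rw [cf_Lc _ _ _ _ _ (by omega), if_pos rfl, one_smul, sub_self]
              exact Submodule.zero_mem _
            · intro w hw hne
              have hw1 : w.length = j := by simpa using hw
              rw [cf_Lc _ _ _ _ _ (by omega), if_neg hne, zero_smul]
            · intro h
              exact absurd (by simpa using hvj) h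
          · rw [Lc_zero _ _ _ _ (by omega)]
            simp
        · rw [Finset.sum_eq_zero, sub_zero]
          · exact Submodule.subset_span ⟨v, by omega, rfl⟩
          · intro w hw
            have hw1 : w.length = j := by simpa using hw
            by_cases hc : j ≤ c
            · rw [cf_Lc _ _ _ _ _ (by omega), if_neg, zero_smul]
              rintro rfl
              exact hvj hw1
            · rw [Lc_zero _ _ _ w (by omega), smul_zero]
      | zero => simp
      | add s t _ _ h1 h2 =>
        have := Submodule.add_mem _ h1 h2
        convert this using 1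
        simp only [map_add, add_smul, Finset.sum_add_distrib]
        abel
      | smul a s _ h1 =>
        have := Submodule.smul_mem _ a h1
        convert this using 1
        rw [smul_sub, Finset.smul_sum]
        simp only [map_smul, smul_smul, smul_eq_mul]
    rw [Finset.sum_eq_zero, sub_zero] at key
    · exact key
    · intro w hw
      rw [h0 w (by simpa using hw), zero_smul]
  · intro i j hi hj hij s hs t ht v w hv hw
    rw [Jw_pow _ _ _ i hi] at hs
    rw [Jw_pow _ _ _ j hj] at ht
    induction hs using Submodule.span_induction with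
    | mem s hs =>
      obtain ⟨a, ha, rfl⟩ := hs
      induction ht using Submodule.span_induction with
      | mem t ht =>
        obtain ⟨b, hb, rfl⟩ := ht
        have e1 := Lc_mul (ZMod (p ^ N)) X c a b
        have e2 := cf_Lc (ZMod (p ^ N)) X c (v ++ w) (a ++ b)
          (by rw [List.length_append]; omega)
        rw [← e1] at e2
        rw [e2, cf_Lc _ _ _ _ _ (by omega), cf_Lc _ _ _ _ _ (by omega)]
        by_cases h1 : v = a
        · subst h1
          by_cases h2 : w = b
          · subst h2
            simp
          · rw [if_neg h2, if_neg, mul_zero]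
            intro h3
            exact h2 (List.append_cancel_left h3)
        · rw [if_neg h1, zero_mul, if_neg]
          intro h3
          have h4 := congrArg List.length h3
          rw [List.length_append, List.length_append] at h4
          exact h1 (List.append_inj h3 (by omega)).1
      | zero => rw [mul_zero, map_zero, map_zero, mul_zero]
      | add t t' _ _ h1 h2 => rw [mul_add, map_add, h1, h2, map_add, mul_add]
      | smul r t _ h1 =>
        rw [mul_smul_comm, map_smul, h1, map_smul, smul_eq_mul, smul_eq_mul]
        ring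
    | zero => rw [zero_mul, map_zero, map_zero, zero_mul]
    | add s s' _ _ h1 h2 => rw [add_mul, map_add, h1, h2, map_add, add_mul]
    | smul r s _ h1 =>
      rw [smul_mul_assoc, map_smul, h1, map_smul, smul_eq_mul, smul_eq_mul]
      ring
  · intro x hc
    rw [cf_Lc _ _ _ _ _ (by simp; omega), if_pos rfl]
  · intro x y hxy
    by_cases hc : [x].length ≤ c
    · rw [cf_Lc _ _ _ _ _ hc, if_neg]
      intro h
      exact hxy (by simpa using h)
    · change (if h : [x].length ≤ c then _ else 0) = (0 : ZMod (p ^ N))
      rw [dif_neg hc]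

end H61.NE
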