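import Pool.Agent.H6.NE.Stm3

set_option autoImplicit false

open Finset

namespace H61.NE

open H6.NE

section
variable {Γ : Type} [Group Γ]

theorem lc_conj (i : ℕ) : ∀ a ∈ lc Γ i, ∀ h : Γ, h * a * h⁻¹ ∈ lc Γ i := by
  induction i with
  | zero => intro a _ h; exact Subgroup.mem_top _
  | succ i ih =>
    intro a ha h
    change a ∈ Subgroup.closure _ at ha
    change _ ∈ Subgroup.closure _
    induction ha using Subgroup.closure_induction with
    | mem x hx =>
      obtain ⟨a, ha, g, rfl⟩ := hx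
      refine Subgroup.subset_closure ⟨h * a * h⁻¹, ih a ha h, h * g * h⁻¹, ?_⟩
      unfold cm
      group
    | one => simp
    | mul x y _ _ h1 h2 =>
      have := Subgroup.mul_mem _ h1 h2
      convert this using 1
      group
    | inv x _ h1 =>
      have := Subgroup.inv_mem _ h1
      convert this using 1
      group

theorem lc_le (i : ℕ) : lc Γ (i + 1) ≤ lc Γ i := by
  change Subgroup.closure _ ≤ _
  rw [Subgroup.closure_le]
  rintro x ⟨a, ha, g, rfl⟩
  have h1 := lc_conj i a⁻¹ (Subgroup.inv_mem _ ha) g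
  have h2 := Subgroup.mul_mem _ ha h1
  have e : cm a g = a * (g * a⁻¹ * g⁻¹) := by unfold cm; group
  rw [e]
  exact h2

theorem lc_cm (i : ℕ) (a g : Γ) (ha : a ∈ lc Γ i) : cm a g ∈ lc Γ (i + 1) :=
  Subgroup.subset_closure ⟨a, ha, g, rfl⟩

instance (i : ℕ) : ((lc Γ (i + 1)).subgroupOf (lc Γ i)).Normal where
  conj_mem := by
    intro n hn g
    rw [Subgroup.mem_subgroupOf] at hn ⊢
    exact lc_conj (i + 1) _ hn _

theorem q_comm (i : ℕ) (a b : lc Γ i ⧸ ((lc Γ (i + 1)).subgroupOf (lc Γ i))) :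
    a * b = b * a := by
  induction a using QuotientGroup.induction_on with
  | H a =>
  induction b using QuotientGroup.induction_on with
  | H b =>
  rw [← QuotientGroup.mk_mul, ← QuotientGroup.mk_mul, QuotientGroup.eq,
    Subgroup.mem_subgroupOf]
  have h1 : cm (b : Γ)⁻¹ (a : Γ)⁻¹ ∈ lc Γ (i + 1) :=
    lc_cm i _ _ (Subgroup.inv_mem _ b.2)
  have e : (((a * b)⁻¹ * (b * a) : lc Γ i) : Γ) = cm (b : Γ)⁻¹ (a : Γ)⁻¹ := by
    unfold cm
    push_cast
    group
  rw [e]
  exact h1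

instance qcg (i : ℕ) : CommGroup (lc Γ i ⧸ ((lc Γ (i + 1)).subgroupOf (lc Γ i))) :=
  { (inferInstance : Group (lc Γ i ⧸ ((lc Γ (i + 1)).subgroupOf (lc Γ i)))) with
    mul_comm := q_comm i }

variable (Γ) in
/-- the relations -/
def Rl : Set (FreeAbelianGroup (ℕ × Γ)) :=
  {x | (∃ i g h, g ∈ lc Γ i ∧ h ∈ lc Γ i ∧ x = FreeAbelianGroup.of (i, g * h) -
      FreeAbelianGroup.of (i, g) - FreeAbelianGroup.of (i, h)) ∨
    (∃ i g, (g ∈ lc Γ (i + 1) ∨ g ∉ lc Γ i) ∧ x = FreeAbelianGroup.of (i, g))}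

variable (Γ) in
/-- the graded group -/
abbrev Gr : Type := FreeAbelianGroup (ℕ × Γ) ⧸ AddSubgroup.closure (Rl Γ)

/-- classes -/
def iot (i : ℕ) (g : Γ) : Gr Γ :=
  QuotientAddGroup.mk' (AddSubgroup.closure (Rl Γ)) (FreeAbelianGroup.of (i, g))

theorem iot_mul (i : ℕ) (g h : Γ) (hg : g ∈ lc Γ i) (hh : h ∈ lc Γ i) :
    iot i (g * h) = iot i g + iot i h := by
  unfold iot
  rw [← map_add]
  have : FreeAbelianGroup.of (i, g * h) - FreeAbelianGroup.of (i, g) -
      FreeAbelianGroup.of (i, h) ∈ AddSubgroup.closure (Rl Γ) :=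
    AddSubgroup.subset_closure (Or.inl ⟨i, g, h, hg, hh, rfl⟩)
  have h2 := (QuotientAddGroup.eq_zero_iff _).2 this
  change QuotientAddGroup.mk' (AddSubgroup.closure (Rl Γ)) _ = 0 at h2
  rw [map_sub, map_sub] at h2
  rw [map_add]
  have h3 := sub_eq_zero.1 h2
  rw [sub_eq_iff_eq_add] at h3
  rw [h3]
  abel

theorem iot_zero (i : ℕ) (g : Γ) (hg : g ∈ lc Γ (i + 1) ∨ g ∉ lc Γ i) : iot i g = 0 :=
  (QuotientAddGroup.eq_zero_iff _).2 (AddSubgroup.subset_closure (Or.inr ⟨i, g, hg, rfl⟩))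

/-- a homomorphism on `Gr` -/
theorem lift_ex {M : Type} [AddCommGroup M] (f : ℕ → Γ → M)
    (h1 : ∀ i g h, g ∈ lc Γ i → h ∈ lc Γ i → f i (g * h) = f i g + f i h)
    (h2 : ∀ i g, (g ∈ lc Γ (i + 1) ∨ g ∉ lc Γ i) → f i g = 0) :
    ∃ φ : Gr Γ →+ M, ∀ i g, φ (iot i g) = f i g := by
  have hle : AddSubgroup.closure (Rl Γ) ≤
      (FreeAbelianGroup.lift (fun x : ℕ × Γ => f x.1 x.2)).ker := by
    rw [AddSubgroup.closure_le]
    rintro x (⟨i, g, h, hg, hh, rfl⟩ | ⟨i, g, hg, rfl⟩)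
    · change FreeAbelianGroup.lift (fun x : ℕ × Γ => f x.1 x.2) _ = 0
      rw [map_sub, map_sub, FreeAbelianGroup.lift_apply_of, FreeAbelianGroup.lift_apply_of,
        FreeAbelianGroup.lift_apply_of]
      change f i (g * h) - f i g - f i h = 0
      rw [h1 i g h hg hh]
      abel
    · change FreeAbelianGroup.lift (fun x : ℕ × Γ => f x.1 x.2) _ = 0
      rw [FreeAbelianGroup.lift_apply_of]
      exact h2 i g hg
  refine ⟨QuotientAddGroup.lift _ (FreeAbelianGroup.lift (fun x : ℕ × Γ => f x.1 x.2))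
    (fun x hx => hle hx), ?_⟩
  intro i g
  exact FreeAbelianGroup.lift_apply_of (fun x : ℕ × Γ => f x.1 x.2) (i, g)

theorem gr_ind {M : Type} [AddCommGroup M] (φ ψ : Gr Γ →+ M)
    (h : ∀ i, ∀ g ∈ lc Γ i, φ (iot i g) = ψ (iot i g)) : φ = ψ := by
  apply QuotientAddGroup.addMonoidHom_ext
  refine FreeAbelianGroup.lift_ext _ _ ?_
  rintro ⟨i, g⟩
  change φ (iot i g) = ψ (iot i g)
  by_cases hg : g ∈ lc Γ i
  · exact h i g hg
  · rw [iot_zero i g (Or.inr hg), map_zero, map_zero]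

open Classical in
theorem iot_eq_zero (i : ℕ) (g : Γ) (hg : g ∈ lc Γ i) (h0 : iot i g = 0) :
    g ∈ lc Γ (i + 1) := by
  obtain ⟨φ, hφ⟩ := lift_ex (Γ := Γ)
    (M := Additive (lc Γ i ⧸ ((lc Γ (i + 1)).subgroupOf (lc Γ i))))
    (fun j x => if h : j = i ∧ x ∈ lc Γ i then Additive.ofMul (QuotientGroup.mk ⟨x, h.2⟩) else 0)
    (by
      intro j x y hx hy
      by_cases hj : j = i
      · subst hj
        rw [dif_pos ⟨rfl, Subgroup.mul_mem _ hx hy⟩, dif_pos ⟨rfl, hx⟩, dif_pos ⟨rfl, hy⟩]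
        rfl
      · rw [dif_neg (fun h => hj h.1), dif_neg (fun h => hj h.1), dif_neg (fun h => hj h.1),
          add_zero])
    (by
      intro j x hx
      by_cases hj : j = i
      · subst hj
        by_cases hg1 : x ∈ lc Γ j
        · have hg2 : x ∈ lc Γ (j + 1) := by
            rcases hx with h | h
            · exact h
            · exact absurd hg1 h
          rw [dif_pos ⟨rfl, hg1⟩]
          have : (QuotientGroup.mk ⟨x, hg1⟩ :
              lc Γ j ⧸ ((lc Γ (j + 1)).subgroupOf (lc Γ j))) = 1 := by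
            rw [QuotientGroup.eq_one_iff, Subgroup.mem_subgroupOf]
            exact hg2
          rw [this]
          rfl
        · rw [dif_neg (fun h => hg1 h.2)]
      · rw [dif_neg (fun h => hj h.1)])
  have h1 := hφ i g
  rw [h0, map_zero, dif_pos ⟨rfl, hg⟩] at h1
  have h2 : (QuotientGroup.mk ⟨g, hg⟩ :
      lc Γ i ⧸ ((lc Γ (i + 1)).subgroupOf (lc Γ i))) = 1 := by
    have := congrArg Additive.toMul h1
    exact this.symm
  rw [QuotientGroup.eq_one_iff, Subgroup.mem_subgroupOf] at h2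
  exact h2

/-- equality of classes -/
theorem iot_congr (i : ℕ) (x y : Γ) (hx : x ∈ lc Γ i) (h : x⁻¹ * y ∈ lc Γ (i + 1)) :
    iot i y = iot i x := by
  have e : y = x * (x⁻¹ * y) := by group
  rw [e, iot_mul i x _ hx (lc_le i h), iot_zero i (x⁻¹ * y) (Or.inl h), add_zero]

theorem iot_inv (i : ℕ) (x : Γ) (hx : x ∈ lc Γ i) : iot i x⁻¹ = - iot i x := by
  have h1 := iot_mul i x x⁻¹ hx (Subgroup.inv_mem _ hx)
  rw [mul_inv_cancel, iot_zero i 1 (Or.inl (Subgroup.one_mem _))] at h1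
  rw [eq_neg_iff_add_eq_zero, add_comm]
  exact h1.symm

end

theorem t_GR (hG : S_GRC) : S_GR := by
  classical
  intro Γ _
  obtain ⟨g1, g2, g3, g4⟩ := hG Γ
  have hA : ∀ (l : ℕ) (b : Γ), ∃ φ : Gr Γ →+ Gr Γ, ∀ i, ∀ g ∈ lc Γ i, b ∈ lc Γ l →
      φ (iot i g) = iot (i + l + 1) (cm g b) := by
    intro l b
    by_cases hb : b ∈ lc Γ l
    · obtain ⟨φ, hφ⟩ := lift_ex (Γ := Γ)
        (fun i g => if g ∈ lc Γ i then iot (i + l + 1) (cm g b) else 0)
        (by
          intro i g h hg hh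
          rw [if_pos (Subgroup.mul_mem _ hg hh), if_pos hg, if_pos hh,
            ← iot_mul _ _ _ (g1 i l g hg b hb) (g1 i l h hh b hb)]
          exact iot_congr _ _ _ (Subgroup.mul_mem _ (g1 i l g hg b hb) (g1 i l h hh b hb))
            (g2 i l g hg h hh b hb))
        (by
          intro i g hg
          by_cases hg1 : g ∈ lc Γ i
          · rw [if_pos hg1]
            rcases hg with h | h
            · apply iot_zero
              left
              have := g1 (i + 1) l g h b hb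
              rw [show i + l + 1 + 1 = i + 1 + l + 1 by ring]
              exact this
            · exact absurd hg1 h
          · rw [if_neg hg1])
      refine ⟨φ, fun i g hg _ => ?_⟩
      rw [hφ, if_pos hg]
    · exact ⟨0, fun i g _ h => absurd h hb⟩
  choose A hA using hA
  refine ⟨Gr Γ, inferInstance, iot, A, fun i g hg h hh => iot_mul i g h hg hh,
    fun i g hg => ⟨iot_eq_zero i g hg, fun h => iot_zero i g (Or.inl h)⟩,
    fun i l g hg b hb => hA l b i g hg hb, ?_, ?_⟩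
  · intro l b hb b' hb'
    apply gr_ind
    intro i g hg
    rw [AddMonoidHom.add_apply, hA l _ i g hg (Subgroup.mul_mem _ hb hb'), hA l _ i g hg hb,
      hA l _ i g hg hb', ← iot_mul _ _ _ (g1 i l g hg b hb) (g1 i l g hg b' hb')]
    exact iot_congr _ _ _ (Subgroup.mul_mem _ (g1 i l g hg b hb) (g1 i l g hg b' hb'))
      (g3 i l g hg b hb b' hb')
  · intro l b hb f v
    have ht : f ∈ lc Γ 0 := Subgroup.mem_top _
    have key : A (l + 1) (cm b f) = (A 0 f).comp (A l b) - (A l b).comp (A 0 f) := by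
      apply gr_ind
      intro i g hg
      have m1 := g1 i l g hg b hb
      have m2 := g1 i 0 g hg f ht
      have m3 := g1 (i + l + 1) 0 _ m1 f ht
      have m4 := g1 (i + 0 + 1) l _ m2 b hb
      have e3 : i + l + 1 + 0 + 1 = i + (l + 1) + 1 := by ring
      have e4 : i + 0 + 1 + l + 1 = i + (l + 1) + 1 := by ring
      rw [AddMonoidHom.sub_apply, AddMonoidHom.comp_apply, AddMonoidHom.comp_apply,
        hA (l + 1) _ i g hg (g1 l 0 b hb f ht), hA l _ i g hg hb, hA 0 _ i g hg ht,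
        hA 0 _ _ _ m1 ht, hA l _ _ _ m2 hb, e3, e4]
      rw [e3] at m3
      rw [e4] at m4
      rw [sub_eq_add_neg, ← iot_inv _ _ m4, ← iot_mul _ _ _ m3 (Subgroup.inv_mem _ m4)]
      exact iot_congr _ _ _ (Subgroup.mul_mem _ m3 (Subgroup.inv_mem _ m4))
        (g4 i l g hg b hb f)
    rw [key]
    rfl

end H61.NE
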